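import Pool.Agent.helper85.AQ.SpecB

/-!
# Project aq (MP_3703a7_ag): row BST, the specialisation at the Eisenstein place
-/

set_option autoImplicit false

namespace Pool.Agent.AQ

open Polynomial Pool.Agent.HC Pool.Agent.HC.SJ Pool.Agent.SJ Pool.Agent.GJ Pool.Agent.TK Pool.Agent.CM
open Pool.Agent.TQJ Pool.Agent.TQG
open Pool.Agent.FJ (VT Om chiO rf rs IsFrobO)
open Pool.Agent.TD (zK DvK bC mK IsPhiK Stab)
open scoped TensorProduct NumberField

noncomputable section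

theorem BST_iota : Nonempty (Om →+* ℂ) := by
  have : Algebra.IsAlgebraic ℚ Om := AlgebraicClosure.isAlgebraic ℚ
  exact ⟨(IsAlgClosed.lift : Om →ₐ[ℚ] ℂ).toRingHom⟩

theorem BST_count : Countable Om := by
  rw [← Cardinal.mk_le_aleph0_iff]
  have h : Algebra.IsAlgebraic ℚ (AlgebraicClosure ℚ) := AlgebraicClosure.isAlgebraic ℚ
  refine (Algebra.IsAlgebraic.cardinalMk_le_max ℚ (AlgebraicClosure ℚ)).trans ?_
  simp

/-- an element with a power which is a unit of the valuation ring -/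
theorem BST_mem {K : Type} [Field K] (O : ValuationSubring K) (l : ℕ) (hl : l ≠ 0) (x : K) (y : O)
    (hy : IsUnit y) (h : x ^ l = (y : K)) : ∃ z : O, (z : K) = x ∧ IsUnit z := by
  have hx : x ∈ O := by
    rcases O.mem_or_inv_mem x with h1 | h1
    · exact h1
    · by_cases hx0 : x = 0
      · rw [hx0]
        exact O.zero_mem
      · have h2 : x = x ^ l * (x⁻¹) ^ (l - 1) := by
          obtain ⟨k, rfl⟩ := Nat.exists_eq_succ_of_ne_zero hl
          rw [Nat.succ_sub_one, pow_succ, inv_pow, mul_right_comm,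
            mul_inv_cancel₀ (pow_ne_zero _ hx0), one_mul]
        rw [h2]
        refine O.mul_mem _ _ ?_ (pow_mem h1 _)
        rw [h]
        exact y.2
  refine ⟨⟨x, hx⟩, rfl, ?_⟩
  have h3 : (⟨x, hx⟩ : O) ^ l = y := Subtype.ext h
  exact (isUnit_pow_iff hl).1 (h3 ▸ hy)

theorem BST_isT_congr {K K' : Type} [Field K] [Field K'] {l n : ℕ} [Fact l.Prime] {μ : Fin (n + 1) → ℕ}
    {a : Fin (n + 1) → K} {a' : Fin (n + 1) → K'} [Good K l μ a] [Good K' l μ a']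
    [IsDedekindDomain (CR K l μ a)] [IsDedekindDomain (CR K' l μ a')] {σ τ : K ≃+* K'} {c e d c' e' d' : K'}
    {E : ClassGroup (CR K l μ a) →* ClassGroup (CR K' l μ a')} (hE : IsT σ c e d E) (hσ : ∀ x, τ x = σ x)
    (hc : c' = c) (he : e' = e) (hd : d' = d) : IsT τ c' e' d' E := by
  subst hc he hd
  intro q q' h1 h2
  exact hE q q' (by rw [h1, hσ]) (by rw [h2, hσ])

theorem BST_comm (hBT1 : BT1_stmt) (hBT2 : BT2_stmt) {K : Type} [Field K] [IsAlgClosed K] {l n : ℕ}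
    [Fact l.Prime] [NeZero (l : K)] {μ : Fin (n + 1) → ℕ} {a a1 : Fin (n + 1) → K} [Good K l μ a] [Good K l μ a1]
    [IsDedekindDomain (CR K l μ a)] [IsDedekindDomain (CR K l μ a1)]
    {c0 e0 d0 : K} {π0 : Equiv.Perm (Fin (n + 1))} (Q0 : IsQ l μ a a1 (RingEquiv.refl K) c0 e0 d0 π0)
    {E0 : ClassGroup (CR K l μ a) →* ClassGroup (CR K l μ a1)} (T0 : IsT (RingEquiv.refl K) c0 e0 d0 E0)
    {g : K ≃+* K} {c e d : K} {π : Equiv.Perm (Fin (n + 1))} (Q1 : IsQ l μ a a g c e d π)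
    {E1 : ClassGroup (CR K l μ a) →* ClassGroup (CR K l μ a)} (T1 : IsT g c e d E1)
    {c' e' d' : K} {π' : Equiv.Perm (Fin (n + 1))} (Q2 : IsQ l μ a1 a1 g c' e' d' π')
    {E2 : ClassGroup (CR K l μ a1) →* ClassGroup (CR K l μ a1)} (T2 : IsT g c' e' d' E2)
    (hc : c' * g c0 = c0 * c) (he : c' * g e0 + e' = c0 * e + e0) (hd : d' * g d0 = d0 * d)
    (C : ClassGroup (CR K l μ a)) : E0 (E1 C) = E2 (E0 C) := by
  have Q : IsQ l μ a a1 g (c0 * c) (c0 * e + e0) (d0 * d) (π.trans π0) := by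
    refine ⟨mul_ne_zero Q0.ne Q1.ne, fun j => ?_, fun j => ?_, ?_⟩
    · have h1 := Q0.pt (π j)
      rw [← Q1.pt j] at h1
      rw [Equiv.trans_apply, ← h1, RingEquiv.refl_apply]
      ring
    · rw [Equiv.trans_apply, Q0.wt, Q1.wt]
    · rw [mul_pow, mul_pow, Q0.rel, Q1.rel]
  obtain ⟨⟨E, hE⟩, -⟩ := hBT1 K K l n μ a a1 g (c0 * c) (c0 * e + e0) (d0 * d) (π.trans π0) Q
  have h1 : E0 (E1 C) = E.toMonoidHom C :=
    hBT2 K K K l n μ a a a1 g c e d π (RingEquiv.refl K) c0 e0 d0 π0 E1 E0 E.toMonoidHom Q1 Q0 T1 T0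
      (BST_isT_congr hE (fun _ => rfl) rfl rfl rfl) C
  have h2 : E2 (E0 C) = E.toMonoidHom C :=
    hBT2 K K K l n μ a a1 a1 (RingEquiv.refl K) c0 e0 d0 π0 g c' e' d' π' E0 E2 E.toMonoidHom Q0 Q2 T0 T2
      (BST_isT_congr hE (fun _ => rfl) hc he hd) C
  rw [h1, h2]

theorem BST (hBEI : BEI_stmt) (hBT1 : BT1_stmt) (hBT2 : BT2_stmt) (hBT3 : BT3_stmt) (hBSE : BSE_stmt) (hBIN : BIN_stmt)
    (h4 : KA4_stmt) (h7 : KA7_stmt) (hB6 : KB6_stmt) (hF1 : FJ.B1_stmt) : BST_stmt := by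
  intro O l n p hlF hpF hchar hl2 hlp hn hpn μ a hgood hded hμ F u hFm hFe hF
  have _ := h7
  have hlP : l.Prime := Fact.out
  have hpP : p.Prime := Fact.out
  have hp0 : ((p : ℕ) : rf O) = 0 := CharP.cast_eq_zero (rf O) p
  have hn0 : ((n + 1 : ℕ) : rf O) ≠ 0 := fun h => hpn ((CharP.cast_eq_zero_iff (rf O) p (n + 1)).1 h)
  have hl0 : ((l : ℕ) : rf O) ≠ 0 := fun h =>
    hlp ((Nat.prime_dvd_prime_iff_eq hpP hlP).1 ((CharP.cast_eq_zero_iff (rf O) p l).1 h)).symm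
  obtain ⟨hw0, -, α, hα, hαu, hαi⟩ := hBEI Om O p n hpP hp0 hn0 F hFm hFe (fun j => a j - (u : Om)) hF
  have : NeZero (l : rf O) := ⟨hl0⟩
  have : NeZero (l : Om) := ⟨by exact_mod_cast hlP.ne_zero⟩
  have : IsAlgClosed (rf O) := (hF1 Om O).1
  have : Countable Om := BST_count
  obtain ⟨w, hw⟩ : ∃ w : Om, w = a 0 - (u : Om) := ⟨_, rfl⟩
  have hw1 : w ≠ 0 := by
    rw [hw]
    exact hw0
  have hα' : ∀ j, ((α j : O) : Om) = (a j - (u : Om)) / w := fun j => by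
    rw [hα j, hw]
  obtain ⟨αK, hαK⟩ : ∃ αK : Fin (n + 1) → Om, αK = fun j => ((α j : O) : Om) := ⟨_, rfl⟩
  obtain ⟨b, hb⟩ : ∃ b : Fin (n + 1) → rf O, b = fun j => rs O (α j) := ⟨_, rfl⟩
  have hK : ∀ j, O.subtype (α j) = αK j := fun j => by rw [hαK]; rfl
  have hk : ∀ j, rs O (α j) = b j := fun j => by rw [hb]
  have hgK : Good Om l μ αK := ⟨fun i j hij => by
    rw [← hK i, ← hK j] at hij
    have h1 : α i = α j := Subtype.ext hij
    exact hαi (congrArg (rs O) h1), hgood.pos, hgood.lt, hgood.inf⟩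
  have hgk : Good (rf O) l μ b := ⟨by rw [hb]; exact hαi, hgood.pos, hgood.lt, hgood.inf⟩
  have hdK : IsDedekindDomain (CR Om l μ αK) := h4 Om l n μ αK
  have hdk : IsDedekindDomain (CR (rf O) l μ b) := h4 (rf O) l n μ b
  obtain ⟨w', hw'⟩ := IsAlgClosed.exists_pow_nat_eq (w ^ (∑ j, μ j)) hlP.pos
  have hw1' : w' ≠ 0 := by
    intro h
    rw [h, zero_pow hlP.ne_zero] at hw'
    exact pow_ne_zero _ hw1 hw'.symm
  have Q0 : IsQ l μ a αK (RingEquiv.refl Om) w⁻¹ (-(u : Om) * w⁻¹) w'⁻¹ (1 : Equiv.Perm (Fin (n + 1))) := by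
    refine ⟨inv_ne_zero hw1, fun j => ?_, fun j => rfl, ?_⟩
    · rw [RingEquiv.refl_apply, Equiv.Perm.one_apply, ← hK j]
      change _ = ((α j : O) : Om)
      rw [hα' j]
      ring
    · rw [inv_pow, inv_pow, hw']
  obtain ⟨⟨E0, hE0⟩, -⟩ := hBT1 Om Om l n μ a αK (RingEquiv.refl Om) w⁻¹ (-(u : Om) * w⁻¹) w'⁻¹ 1 Q0
  obtain ⟨sp, hsp⟩ := hB6 Om O l n μ α αK b hK hk
  obtain ⟨ι⟩ := BST_iota
  -- the powers of a_0 - u
  have hα0 : α 0 = 1 := by
    apply Subtype.ext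
    change ((α 0 : O) : Om) = 1
    rw [hα' 0, ← hw, div_self hw1]
  refine ⟨b, hgk, hdk, sp.comp E0.toMonoidHom, ?_, ?_, ?_, ?_, ?_⟩
  · rw [← hk 0, hα0, map_one]
  · intro j
    rw [← hk j]
    exact (hαu j).2
  · intro q hqF hqp v hv
    have hqP : q.Prime := Fact.out
    have hq0 : ((q : ℕ) : rf O) ≠ 0 := fun h =>
      hqp ((Nat.prime_dvd_prime_iff_eq hpP hqP).1 ((CharP.cast_eq_zero_iff (rf O) p q).1 h)).symm
    have h1 := hBIN Om ι O l n q hq0 hl2 hn μ α αK b hK hk sp hsp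
      (VT.map q (MonoidHom.toAdditive E0.toMonoidHom) v) (fun x => hv x)
    refine FJ.VT.ext fun x => ?_
    have h2 : (VT.map q (MonoidHom.toAdditive E0.toMonoidHom) v).val x = 0 := by
      rw [h1]
      rfl
    rw [FJ.VT.map_val] at h2
    have h3 : E0 (Additive.toMul (v.val x)) = 1 := h2
    have h4' : Additive.toMul (v.val x) = 1 := by
      apply E0.injective
      rw [h3, map_one]
    exact h4'
  · intro g g' hg hgg π h
    have hgw : g w = a (π 0) - (u : Om) := by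
      rw [hw, map_sub, h.pt, map_intCast]
    have hgw0 : g w ≠ 0 := (map_ne_zero g).2 hw1
    have hgw0' : g w' ≠ 0 := (map_ne_zero g).2 hw1'
    have hc : ((α (π 0) : O) : Om) = g w / w := by rw [hα' (π 0), hgw]
    obtain ⟨dO, hdO, hdu⟩ := BST_mem O l hlP.ne_zero (g w' / w') ((α (π 0)) ^ (∑ j, μ j)) ((hαu (π 0)).1.pow _) (by
      rw [SubmonoidClass.coe_pow, hc, div_pow, div_pow, ← map_pow, ← map_pow, hw'])
    have Qg : IsQ l μ αK αK g ((α (π 0) : O) : Om) 0 ((dO : O) : Om) π := by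
      refine ⟨?_, fun j => ?_, h.wt, ?_⟩
      · rw [hc]
        exact div_ne_zero hgw0 hw1
      · rw [← hK j, ← hK (π j)]
        change _ * g ((α j : O) : Om) + 0 = ((α (π j) : O) : Om)
        rw [hα' j, hα' (π j), map_div₀, map_sub, h.pt, map_intCast, hc]
        field_simp
        ring
      · rw [hdO, hc, div_pow, div_pow, ← map_pow, ← map_pow, hw']
    obtain ⟨⟨Eg, hEg⟩, -⟩ := hBT1 Om Om l n μ αK αK g _ 0 _ π Qg
    have Qk : IsQ l μ b b g' (b (π 0)) 0 (rs O dO) π := by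
      refine ⟨?_, fun j => ?_, h.wt, ?_⟩
      · rw [← hk (π 0)]
        exact ((hαu (π 0)).1.map (rs O)).ne_zero
      · have hz : g ((α j : O) : Om) ∈ O := (hg _).1 (α j).2
        have h5 : g' (rs O (α j)) = rs O ⟨g ((α j : O) : Om), hz⟩ := hgg (α j) ⟨g ((α j : O) : Om), hz⟩ rfl
        rw [← hk j, ← hk (π j), ← hk (π 0), h5, add_zero, ← map_mul]
        congr 1
        apply Subtype.ext
        have h6 := Qg.pt j
        rw [← hK j, ← hK (π j), add_zero] at h6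
        exact h6
      · rw [← hk (π 0), ← map_pow, ← map_pow]
        congr 1
        apply Subtype.ext
        have h6 := Qg.rel
        rw [SubmonoidClass.coe_pow, SubmonoidClass.coe_pow]
        exact h6
    refine ⟨rs O dO, Qk, fun E' hE' C => ?_⟩
    have Qa : IsQ l μ a a g 1 0 1 π := ⟨one_ne_zero, fun j => by rw [one_mul, add_zero, h.pt], h.wt, by rw [one_pow, one_pow]⟩
    have h8 : E0.toMonoidHom ((ClassGroup.mulEquiv (autP (l := l) g h)).toMonoidHom C) = Eg.toMonoidHom (E0.toMonoidHom C) := by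
      refine BST_comm hBT1 hBT2 Q0 hE0 Qa ((hBT3 Om l n μ a g).1 π h) Qg hEg ?_ ?_ ?_ C
      · rw [map_inv₀, hc]
        field_simp
      · rw [map_mul, map_inv₀, map_neg, map_intCast, hc]
        field_simp
        ring
      · rw [map_inv₀, hdO]
        field_simp
    have h9 := hBSE Om O l n μ α αK b hK hk sp hsp g g' hg hgg (α (π 0)) dO π (hαu (π 0)).1 hdu Qg Eg.toMonoidHom E' hEg
      (BST_isT_congr hE' (fun _ => rfl) (hk (π 0)) rfl rfl) (E0.toMonoidHom C)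
    calc sp.comp E0.toMonoidHom (ClassGroup.mulEquiv (autP g h) C)
        = sp (E0.toMonoidHom ((ClassGroup.mulEquiv (autP (l := l) g h)).toMonoidHom C)) := rfl
      _ = sp (Eg.toMonoidHom (E0.toMonoidHom C)) := by rw [h8]
      _ = E' (sp (E0.toMonoidHom C)) := h9
  · intro s y hy E' hE' C
    have hsl : ((s : Omˣ) : Om) ^ l = 1 := by
      rw [← Units.val_pow_eq_pow_val, (mem_rootsOfUnity l _).1 s.2, Units.val_one]
    have hyl : y ^ l = 1 := by
      apply Subtype.ext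
      rw [SubmonoidClass.coe_pow]
      change (y : Om) ^ l = 1
      rw [hy, hsl]
    have hyu : IsUnit y := (isUnit_pow_iff hlP.ne_zero).1 (by rw [hyl]; exact isUnit_one)
    obtain ⟨yu, hyu'⟩ := hyu
    have hinv : (((yu⁻¹ : Oˣ) : O) : Om) = (((s⁻¹ : rootsOfUnity l Om) : Omˣ) : Om) := by
      have h1 : (((yu⁻¹ : Oˣ) : O) : Om) * (y : Om) = 1 := by
        rw [← hyu']
        have h2 : ((yu⁻¹ : Oˣ) : O) * (yu : O) = 1 := Units.inv_mul yu
        have h3 := congrArg (Subtype.val) h2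
        exact h3
      have h2 : (((s⁻¹ : rootsOfUnity l Om) : Omˣ) : Om) * ((s : Omˣ) : Om) = 1 := by
        rw [← Units.val_mul]
        simp
      rw [hy] at h1
      exact mul_right_cancel₀ (Units.ne_zero (s : Omˣ)) (h1.trans h2.symm)
    have hs1 : ((((s⁻¹ : rootsOfUnity l Om) : Omˣ) : Om)) ^ l = 1 := by
      rw [← Units.val_pow_eq_pow_val, (mem_rootsOfUnity l _).1 (s⁻¹).2, Units.val_one]
    have Qa : IsQ l μ a a (RingEquiv.refl Om) 1 0 (((s⁻¹ : rootsOfUnity l Om) : Omˣ) : Om) (1 : Equiv.Perm (Fin (n + 1))) :=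
      ⟨one_ne_zero, fun j => by rw [one_mul, add_zero]; rfl, fun j => rfl, by rw [one_pow, hs1]⟩
    have Qs : IsQ l μ αK αK (RingEquiv.refl Om) 1 0 (((s⁻¹ : rootsOfUnity l Om) : Omˣ) : Om) (1 : Equiv.Perm (Fin (n + 1))) :=
      ⟨one_ne_zero, fun j => by rw [one_mul, add_zero]; rfl, fun j => rfl, by rw [one_pow, hs1]⟩
    have Ts := (hBT3 Om l n μ αK (RingEquiv.refl Om)).2 (fun _ => rfl) s
    have h8 : E0.toMonoidHom ((ClassGroup.mulEquiv (CR.aut (RingEquiv.refl Om) (fun _ => rfl) s : CR Om l μ a ≃+* CR Om l μ a)).toMonoidHom C) =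
        (ClassGroup.mulEquiv (CR.aut (RingEquiv.refl Om) (fun _ => rfl) s : CR Om l μ αK ≃+* CR Om l μ αK)).toMonoidHom (E0.toMonoidHom C) := by
      refine BST_comm hBT1 hBT2 Q0 hE0 Qa ((hBT3 Om l n μ a (RingEquiv.refl Om)).2 (fun _ => rfl) s) Qs Ts ?_ ?_ ?_ C
      · rw [RingEquiv.refl_apply]; ring
      · rw [RingEquiv.refl_apply]; ring
      · rw [RingEquiv.refl_apply]; ring
    have hst : Stab O (RingEquiv.refl Om) := fun x => Iff.rfl
    have hrd : Rd O (RingEquiv.refl Om) (RingEquiv.refl (rf O)) := by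
      intro y z hyz
      have h1 : y = z := Subtype.ext hyz
      rw [h1]
      rfl
    have Qs' : IsQ l μ αK αK (RingEquiv.refl Om) ((1 : O) : Om) 0 (((yu⁻¹ : Oˣ) : O) : Om) (1 : Equiv.Perm (Fin (n + 1))) := by
      rw [hinv]
      exact Qs
    have Ts' : IsT (RingEquiv.refl Om) ((1 : O) : Om) 0 (((yu⁻¹ : Oˣ) : O) : Om)
        (ClassGroup.mulEquiv (CR.aut (RingEquiv.refl Om) (fun _ => rfl) s : CR Om l μ αK ≃+* CR Om l μ αK)).toMonoidHom := by
      rw [hinv]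
      exact Ts
    have hry : rs O ((yu⁻¹ : Oˣ) : O) = (rs O y)⁻¹ := by
      refine eq_inv_of_mul_eq_one_left ?_
      rw [← map_mul, ← hyu', Units.inv_mul, map_one]
    have h9 := hBSE Om O l n μ α αK b hK hk sp hsp (RingEquiv.refl Om) (RingEquiv.refl (rf O)) hst hrd 1 ((yu⁻¹ : Oˣ) : O) 1 isUnit_one
      (Units.isUnit _) Qs' _ E' Ts' (BST_isT_congr hE' (fun _ => rfl) (map_one (rs O)) rfl hry) (E0.toMonoidHom C)
    calc sp.comp E0.toMonoidHom (ClassGroup.mulEquiv (CR.aut (RingEquiv.refl Om) (fun _ => rfl) s) C)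
        = sp (E0.toMonoidHom ((ClassGroup.mulEquiv (CR.aut (RingEquiv.refl Om) (fun _ => rfl) s : CR Om l μ a ≃+* CR Om l μ a)).toMonoidHom C)) := rfl
      _ = sp ((ClassGroup.mulEquiv (CR.aut (RingEquiv.refl Om) (fun _ => rfl) s : CR Om l μ αK ≃+* CR Om l μ αK)).toMonoidHom (E0.toMonoidHom C)) := by
          rw [h8]
      _ = E' (sp (E0.toMonoidHom C)) := h9

end

end Pool.Agent.AQ
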